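import Pool.Agent.H.MP_26275f_an.Space

set_option autoImplicit false

namespace Pool.Agent.H.MP_26275f_an

open Filter Topology Set Pool.Agent.H.MP_4a5259_an
open scoped ENNReal RealInnerProductSpace ZeroAtInfty

theorem A_split (m : ℕ) (t : E) (w : ℕ → Hs) (n : ℕ) (x : Hs) :
    A t w n x = A (P (Iio m) t) w n x + A (P (Ici m) t) w n x := by
  rw [← A_add, ← P_split']

theorem conv (y : Y) : Tendsto (fun F : Finset ℝ => Q (F : Set ℝ)ᶜ y) atTop (𝓝 0) := by
  refine Metric.tendsto_nhds.mpr fun ε hε => ?_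
  obtain ⟨m, hm⟩ := tailY y (show 0 < ε / 3 by positivity)
  have h := ((res_tail (v y)).const_mul (2 ^ m)).eventually
    (ge_mem_nhds (show 2 ^ m * 0 < ε / 3 by simpa using hε))
  filter_upwards [h] with F hF
  rw [dist_zero_right]
  refine lt_of_le_of_lt (nrm_le (C := 2 * (ε / 3)) fun t w n ht hw => ?_) (by linarith)
  have a1 := (le_abs_self _).trans (head m t hw n (res (F : Set ℝ)ᶜ (v y)))
  have a2 := (le_abs_self _).trans (hm t _ n (hw.res (F : Set ℝ)ᶜ))
  rw [← A_res] at a2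
  rw [v_Q, A_split m]
  have a3 := mul_le_mul hF ht (norm_nonneg _) (by positivity)
  nlinarith

theorem hasSum_u (y : Y) : HasSum (fun γ => cd (v y) γ • u γ) y := by
  have := (conv y).const_sub y
  rw [sub_zero] at this
  refine this.congr fun F => ?_
  rw [← Q_fin, sub_eq_iff_eq_add]
  exact Q_split _ y

/-- coordinate functional -/
noncomputable def cf (γ : ℝ) : Y →L[ℝ] ℝ := (innerSL ℝ (sg γ)).comp v

theorem cf_eq (γ : ℝ) (y : Y) : cf γ y = cd (v y) γ := rfl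

theorem uniq {a : ℝ → ℝ} {y : Y} (h : HasSum (fun γ => a γ • u γ) y) : a = cd (v y) := by
  funext δ
  have h1 := h.mapL (cf δ)
  simp only [map_smul, cf_eq, v_u, cd_sg, smul_eq_mul, mul_ite, mul_one, mul_zero] at h1
  refine HasSum.unique ?_ h1
  simpa using hasSum_single (f := fun γ => if δ = γ then a γ else 0) δ
    fun γ hγ => if_neg (Ne.symm hγ)

theorem hump {Z : Set Y} (h1 : ∀ z ∈ Z, ‖z‖ ≤ 1) (h2 : ∀ ε > 0, ∃ z ∈ Z, ‖v z‖ ≤ ε) (N : ℕ) :
    ∃ z : ℕ → Y, (∀ k, z k ∈ Z) ∧ ∀ (c : ℕ → ℝ) (M : ℝ), 0 ≤ M → (∀ k, |c k| ≤ M) →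
      ‖∑ k ∈ Finset.range N, c k • z k‖ ≤ 3 * M ∧
      ∀ j < N, |c j| * ‖z j‖ ≤ ‖∑ k ∈ Finset.range N, c k • z k‖ + M / 4 := by
  obtain ⟨ε, hε, hN⟩ : ∃ ε : ℝ, 0 < ε ∧ (N + 1) * (2 * ε) = 1 / 4 :=
    ⟨1 / (8 * (N + 1)), by positivity, by field_simp; norm_num⟩
  have st : ∀ m : ℕ, ∃ m', m < m' ∧ ∃ z ∈ Z, ∀ t w n, D w →
      |A t w n (v z) - A (P (Ico m m') t) w n (v z)| ≤ 2 * ε * ‖t‖ := fun m => by
    obtain ⟨z, hz, h⟩ := h2 (ε / 2 ^ m) (by positivity)
    obtain ⟨b, hb⟩ := tailY z hε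
    refine ⟨max m b + 1, by omega, z, hz, fun t w n hw => ?_⟩
    have a1 := head m t hw n (v z)
    have a2 := hb (P (Ici (max m b + 1)) t) w n hw
    rw [P_P, Ici_inter_Ici, sup_eq_right.mpr (by omega)] at a2
    rw [A_split m t, P_split (show m ≤ max m b + 1 by omega), A_add]
    rw [le_div_iff₀' (by positivity)] at h
    have a3 := mul_le_mul_of_nonneg_right h (norm_nonneg t)
    have a4 := mul_le_mul_of_nonneg_left (P_le (Ici (max m b + 1)) t) hε.le
    have a5 := abs_add_le (A (P (Iio m) t) w n (v z)) (A (P (Ici (max m b + 1)) t) w n (v z))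
    rw [show ∀ a b c : ℝ, a + (b + c) - b = a + c from fun _ _ _ => by ring]
    linarith
  choose nx s1 z s2 s3 using st
  have hm := iter s1 N
  set m := fun k => nx^[k] N with hmdef
  have hs : ∀ k, m (k + 1) = nx (m k) := fun k => Function.iterate_succ_apply' _ _ _
  refine ⟨fun k => z (m k), fun k => s2 _, fun c M hM hc => ⟨nrm_le fun t w n ht hw => ?_,
    fun j hj => ?_⟩⟩
  · have lo := lower hm.monotone (Finset.range N)
      (fun j _ => (Finset.card_range N).le.trans (hm.monotone (Nat.zero_le j))) t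
    simp only [map_sum, map_smul, smul_eq_mul]
    refine (Finset.sum_le_sum (g := fun k => M * ‖P (Ico (m k) (m (k + 1))) t‖ + M * (2 * ε))
      fun k _ => ?_).trans ?_
    · have a1 := s3 (m k) t w n hw
      have a2 := (v_bd (z (m k))).abs (P (Ico (m k) (nx (m k))) t) hw n
      have a3 := mul_le_mul_of_nonneg_right (h1 _ (s2 (m k)))
        (norm_nonneg (P (Ico (m k) (nx (m k))) t))
      have a4 := abs_sub_abs_le_abs_sub (A t w n (v (z (m k))))
        (A (P (Ico (m k) (nx (m k))) t) w n (v (z (m k))))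
      have a5 := mul_le_mul_of_nonneg_left ht (show 0 ≤ 2 * ε by positivity)
      rw [hs, ← mul_add]
      refine (le_abs_self _).trans ?_
      rw [abs_mul]
      exact mul_le_mul (hc k) (by linarith) (abs_nonneg _) hM
    · rw [Finset.sum_add_distrib, ← Finset.mul_sum, Finset.sum_const, Finset.card_range,
        nsmul_eq_mul]
      nlinarith [mul_nonneg hM hε.le]
  · rw [← Real.norm_eq_abs, ← norm_smul]
    refine nrm_le fun t w n ht hw => ?_
    have a0 := v_bd (∑ k ∈ Finset.range N, c k • z (m k)) _ w n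
      ((P_le (Ico (m j) (nx (m j))) t).trans ht) hw
    rw [map_sum, map_sum, ← Finset.add_sum_erase _ _ (Finset.mem_range.mpr hj)] at a0
    simp only [map_smul, smul_eq_mul] at a0 ⊢
    have a5 := mul_le_mul_of_nonneg_left ht (show 0 ≤ 2 * ε by positivity)
    have a1 : |c j * (A t w n (v (z (m j))) - A (P (Ico (m j) (nx (m j))) t) w n (v (z (m j))))| ≤
        M * (2 * ε) := by
      rw [abs_mul]
      exact mul_le_mul (hc j) (by linarith [s3 (m j) t w n hw]) (abs_nonneg _) hM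
    have a2 := Finset.card_nsmul_le_sum ((Finset.range N).erase j)
      (fun k => c k * A (P (Ico (m j) (nx (m j))) t) w n (v (z (m k)))) (-(M * (2 * ε)))
      fun k hk => by
        have b1 := s3 (m k) (P (Ico (m j) (nx (m j))) t) w n hw
        have b2 : Ico (m k) (nx (m k)) ∩ Ico (m j) (nx (m j)) = ∅ := by
          rw [← hs, ← hs]
          ext i
          simp only [mem_inter_iff, mem_Ico, mem_empty_iff_false, iff_false]
          rcases lt_or_gt_of_ne (Finset.ne_of_mem_erase hk) with h | h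
          · have := hm.monotone (show k + 1 ≤ j by omega)
            omega
          · have := hm.monotone (show j + 1 ≤ k by omega)
            omega
        have b3 : A (P ∅ t) w n (v (z (m k))) = 0 := by simp [A_eq, co_P]
        rw [P_P, b2, b3, sub_zero] at b1
        have b4 := mul_le_mul_of_nonneg_left ((P_le (Ico (m j) (nx (m j))) t).trans ht)
          (show 0 ≤ 2 * ε by positivity)
        refine (abs_le.mp ?_).1
        rw [abs_mul]
        exact mul_le_mul (hc k) (by linarith) (abs_nonneg _) hM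
    have a3 : (((Finset.range N).erase j).card : ℝ) ≤ N := by
      exact_mod_cast Finset.card_erase_le.trans (Finset.card_range N).le
    rw [nsmul_eq_mul] at a2
    have a4 := (abs_le.mp a1).2
    have a6 := mul_le_mul_of_nonneg_right a3 (mul_nonneg hM (show 0 ≤ 2 * ε by positivity))
    nlinarith

theorem exists_res (x : Hs) {ε : ℝ} (hε : 0 < ε) : ∃ F : Finset ℝ, ‖res (F : Set ℝ)ᶜ x‖ ≤ ε :=
  ((res_tail x).eventually (ge_mem_nhds hε)).exists

theorem shrinkY (f : Y →L[ℝ] ℝ) {η : ℝ} (hη : 0 < η) :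
    ∃ F : Finset ℝ, ‖f.comp (Q (F : Set ℝ)ᶜ)‖ ≤ η := by
  by_contra hc
  push Not at hc
  have ind : ∀ n : ℕ, ∃ s : Y, ‖s‖ ≤ n ∧ n * η ≤ f s ∧ ‖v s‖ ^ 2 ≤ 2 * n := fun n => by
    induction n with
    | zero => exact ⟨0, by simp, by simp, by simp⟩
    | succ n ih =>
      obtain ⟨s, a1, a2, a3⟩ := ih
      obtain ⟨F, hF⟩ := exists_res (v s) one_half_pos
      obtain ⟨y, hy, h3⟩ := (f.comp (Q (F : Set ℝ)ᶜ)).exists_lt_apply_of_lt_opNorm (hc F)
      obtain ⟨z, hz, h4⟩ : ∃ z, ‖z‖ ≤ 1 ∧ η < f (Q (F : Set ℝ)ᶜ z) := by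
        rcases lt_abs.mp h3 with h4 | h4
        · exact ⟨y, hy.le, h4⟩
        · exact ⟨-y, by simpa using hy.le, by simpa using h4⟩
      have b1 := (Q_le (F : Set ℝ)ᶜ z).trans hz
      have b2 := (v_le _).trans b1
      have b3 := (real_inner_le_norm (res (F : Set ℝ)ᶜ (v s)) (v z)).trans
        (mul_le_mul hF ((v_le z).trans hz) (norm_nonneg _) (by norm_num))
      rw [res_inner, ← v_Q] at b3
      refine ⟨s + Q (F : Set ℝ)ᶜ z, (norm_add_le _ _).trans (by push_cast; linarith), ?_, ?_⟩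
      · rw [map_add]; push_cast; linarith
      · rw [map_add, norm_add_sq_real]
        push_cast
        nlinarith [norm_nonneg (v (Q (F : Set ℝ)ᶜ z))]
  obtain ⟨N, hN⟩ := exists_nat_gt (‖f‖ * 3 / η)
  obtain ⟨z, z1, z2⟩ := hump (Z := {z | ‖z‖ ≤ 1 ∧ η ≤ f z}) (fun z hz => hz.1) (fun ε hε => by
    obtain ⟨n, hn⟩ := exists_nat_gt (2 / ε ^ 2)
    have p : (0 : ℝ) < n := lt_trans (by positivity) hn
    obtain ⟨s, a1, a2, a3⟩ := ind n
    refine ⟨(n : ℝ)⁻¹ • s, ⟨?_, ?_⟩, ?_⟩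
    · rw [norm_smul, norm_inv, Real.norm_natCast, inv_mul_le_iff₀ p, mul_one]; exact a1
    · rw [map_smul, smul_eq_mul, le_inv_mul_iff₀ p]; exact a2
    · rw [map_smul, norm_smul, norm_inv, Real.norm_natCast, inv_mul_le_iff₀ p]
      rw [div_lt_iff₀ (by positivity)] at hn
      exact le_of_sq_le_sq (by nlinarith) (by positivity)) N
  have a1 := (le_abs_self _).trans
    (f.le_opNorm_of_le (z2 (fun _ => 1) 1 zero_le_one (by simp)).1)
  simp only [one_smul, map_sum, mul_one] at a1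
  have a2 := Finset.card_nsmul_le_sum (Finset.range N) (fun k => f (z k)) η fun k _ => (z1 k).2
  rw [Finset.card_range, nsmul_eq_mul] at a2
  rw [div_lt_iff₀ hη] at hN
  linarith

theorem reflY (Φ : (Y →L[ℝ] ℝ) →L[ℝ] ℝ) : ∃ y : Y, ∀ f, Φ f = f y := by
  let Ψ : Hs →L[ℝ] ℝ := Φ.comp (((ContinuousLinearMap.compL ℝ Y Hs ℝ).flip v).comp (innerSL ℝ))
  obtain ⟨x, hx⟩ : ∃ x : Hs, ∀ w, ⟪w, x⟫ = Φ ((innerSL ℝ w).comp v) :=
    ⟨(InnerProductSpace.toDual ℝ Hs).symm Ψ, fun w => by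
      rw [real_inner_comm, InnerProductSpace.toDual_symm_apply]; rfl⟩
  have hb : Bd x ‖Φ‖ := fun t w n ht hw => by
    have e2 : ‖(A t w n).comp v‖ ≤ 1 := ContinuousLinearMap.opNorm_le_bound _ zero_le_one
      fun y => by
        have := (v_bd y).abs t hw n
        have := mul_le_mul_of_nonneg_left ht (norm_nonneg y)
        rw [ContinuousLinearMap.comp_apply, Real.norm_eq_abs]
        linarith
    have := (le_abs_self _).trans (Φ.le_opNorm_of_le e2)
    have e1 : (A t w n).comp v = ∑ i ∈ Finset.range n, co t i • (innerSL ℝ (w i)).comp v := by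
      ext y
      simp [A_eq]
    rw [e1, map_sum] at this
    simpa [A_eq, hx] using this
  refine ⟨mkY x _ hb, fun f => ?_⟩
  set y := mkY x _ hb
  refine eq_of_forall_dist_le fun ε hε => ?_
  have p : 0 < ‖Φ‖ + ‖y‖ + 1 := by positivity
  obtain ⟨F, hF⟩ := shrinkY f (div_pos hε p)
  have a1 : f = ∑ γ ∈ F, f (u γ) • cf γ + f.comp (Q (F : Set ℝ)ᶜ) := by
    ext z
    conv_lhs => rw [Q_split F z, map_add, Q_fin, map_sum]
    simp [cf_eq, mul_comm]
  have a2 : f y = ∑ γ ∈ F, f (u γ) * Φ (cf γ) + f (Q (F : Set ℝ)ᶜ y) := by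
    conv_lhs => rw [Q_split F y, map_add, Q_fin, map_sum]
    simp only [map_smul, smul_eq_mul, mul_comm]
    congr 1
    exact Finset.sum_congr rfl fun γ _ => congrArg _ (hx _)
  have a3 := congrArg Φ a1
  simp only [map_add, map_sum, map_smul, smul_eq_mul] at a3
  have a4 := abs_le.mp (Φ.le_opNorm_of_le hF)
  have a5 := abs_le.mp ((f.comp (Q (F : Set ℝ)ᶜ)).le_of_opNorm_le hF y)
  rw [ContinuousLinearMap.comp_apply] at a5
  have a6 : (‖Φ‖ + ‖y‖ + 1) * (ε / (‖Φ‖ + ‖y‖ + 1)) = ε := mul_div_cancel₀ _ p.ne'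
  have a7 := div_pos hε p
  rw [Real.dist_eq, abs_le]
  constructor <;> nlinarith

theorem card_le {S : Set Y} (h : Dense S) : Cardinal.continuum ≤ Cardinal.mk S := by
  choose d h1 h2 using fun γ => Metric.mem_closure_iff.mp (h (u γ)) _ one_half_pos
  rw [← Cardinal.mk_real]
  refine Cardinal.mk_le_of_injective (f := fun γ => ⟨d γ, h1 γ⟩) fun γ δ e => ?_
  by_contra hne
  have e' : d γ = d δ := congrArg Subtype.val e
  have a1 := dist_triangle_right (u γ) (u δ) (d γ)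
  have a2 := (cd_le _ γ).trans (v_le (u γ - u δ))
  rw [← cf_eq, map_sub, cf_eq, cf_eq, v_u, v_u, cd_sg, cd_sg, if_pos rfl, if_neg hne,
    ← dist_eq_norm] at a2
  have a3 := h2 γ
  have a4 := h2 δ
  rw [← e'] at a4
  norm_num at a2
  linarith

theorem dense_ex : ∃ S : Set Y, Dense S ∧ Cardinal.mk S = Cardinal.continuum := by
  have hd : Dense (range (Finsupp.linearCombination ℝ u)) := fun y =>
    mem_closure_of_tendsto (hasSum_u y) (.of_forall fun F => by
      rw [← LinearMap.coe_range, Finsupp.range_linearCombination]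
      exact Submodule.sum_mem _ fun γ _ =>
        Submodule.smul_mem _ _ (Submodule.subset_span ⟨γ, rfl⟩))
  exact ⟨_, hd, le_antisymm (Cardinal.mk_range_le.trans (by simp [Cardinal.mk_real])) (card_le hd)⟩

theorem sing {Z : Submodule ℝ Y} (hZ : ¬ FiniteDimensional ℝ Z) {ε : ℝ} (hε : 0 < ε) :
    ∃ z, (z ∈ Z ∧ ‖z‖ = 1) ∧ ‖v z‖ ≤ ε := by
  have ind : ∀ n : ℕ, ∃ s ∈ Z, (∀ γ, |cd (v s) γ| ≤ 2) ∧ n ≤ ‖v s‖ ^ 2 := fun n => by
    induction n with
    | zero => exact ⟨0, Z.zero_mem, by simp [cd], by simp⟩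
    | succ n ih =>
      obtain ⟨s, a1, a2, a3⟩ := ih
      obtain ⟨F, hF⟩ := exists_res (v s) one_pos
      let L : Z →ₗ[ℝ] (F → ℝ) := LinearMap.pi fun γ => (cf γ : Y →ₗ[ℝ] ℝ).comp Z.subtype
      have hL : LinearMap.ker L ≠ ⊥ := fun h =>
        hZ (FiniteDimensional.of_injective L (LinearMap.ker_eq_bot.mp h))
      obtain ⟨z, z1, z2⟩ := (LinearMap.ker L).exists_mem_ne_zero_of_ne_bot hL
      have z3 : 0 < ‖v z‖ := norm_pos_iff.mpr fun h =>
        z2 (Subtype.ext (v_inj (h.trans (map_zero v).symm)))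
      obtain ⟨c, c1, c2⟩ : ∃ c : ℝ, ‖c • v z‖ = 1 ∧ 0 ≤ ⟪v s, c • v z⟫ := by
        rcases le_total 0 ⟪v s, v z⟫ with h | h
        · exact ⟨‖v z‖⁻¹, by simp [norm_smul, z3.ne'], by
            rw [real_inner_smul_right]; positivity⟩
        · exact ⟨-‖v z‖⁻¹, by simp [norm_smul, z3.ne'], by
            rw [real_inner_smul_right]
            exact mul_nonneg_of_nonpos_of_nonpos (by simp) h⟩
      refine ⟨s + c • z, Z.add_mem a1 (Z.smul_mem c z.2), fun γ => ?_, ?_⟩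
      · rw [map_add, map_smul, cd_add]
        by_cases h : γ ∈ F
        · have : cd (v z) γ = 0 := congrFun (LinearMap.mem_ker.mp z1) ⟨γ, h⟩
          simpa [cd_smul, this] using a2 γ
        · have b1 := (cd_le _ γ).trans hF
          rw [cd_res, indicator_of_mem (by simpa using h)] at b1
          have b2 := (cd_le _ γ).trans c1.le
          exact (abs_add_le _ _).trans (by linarith)
      · rw [map_add, map_smul, norm_add_sq_real, c1]
        push_cast
        linarith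
  obtain ⟨i, hi⟩ := pow_unbounded_of_one_lt (1 / ε) (one_lt_two (α := ℝ))
  obtain ⟨n, hn⟩ := exists_nat_ge (((4 : ℝ) ^ i * 2) ^ 2)
  obtain ⟨s, a1, a2, a3⟩ := ind n
  have b1 : 4 ^ i * 2 ≤ ‖v s‖ := le_of_sq_le_sq (hn.trans a3) (norm_nonneg _)
  have b2 := (v_bd s).flat i fun γ =>
    (mul_le_mul_of_nonneg_left (a2 γ) (by positivity)).trans b1
  have b3 : 0 < ‖v s‖ := lt_of_lt_of_le (by positivity) b1
  have b4 : 0 < ‖s‖ := b3.trans_le (v_le s)
  refine ⟨‖s‖⁻¹ • s, ⟨Z.smul_mem _ a1, by simp [norm_smul, b4.ne']⟩, ?_⟩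
  rw [map_smul, norm_smul, norm_inv, norm_norm, inv_mul_le_iff₀ b4]
  rw [div_lt_iff₀ hε] at hi
  nlinarith

variable {V : Type} [NormedAddCommGroup V] [NormedSpace ℝ V] [FiniteDimensional ℝ V]

theorem fin_c0 (c : ℕ → V →ₗ[ℝ] ℝ) (h2 : ∀ x, (∀ j, |c j x| ≤ 1 / 2) → ‖x‖ ≤ 1 / 2) :
    ∃ N : ℕ, ∀ x : V, x ≠ 0 → ∃ j < N, ‖x‖ ≤ 2 * |c j x| := by
  obtain ⟨s, hs⟩ := (isCompact_sphere (0 : V) 1).elim_finite_subcover
    (fun j : ℕ => {x : V | 1 / 2 < |c j x|})
    (fun j => isOpen_lt continuous_const (c j).continuous_of_finiteDimensional.abs)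
    fun x hx => by
      by_contra hc
      simp only [mem_iUnion, mem_ofPred_eq, not_exists, not_lt] at hc
      have h1 := h2 x hc
      have h2 : ‖x‖ = 1 := by simpa using hx
      linarith
  obtain ⟨b, hb⟩ := s.bddAbove
  refine ⟨b + 1, fun x hx => ?_⟩
  have p := norm_pos_iff.mpr hx
  have := hs (show ‖x‖⁻¹ • x ∈ Metric.sphere (0 : V) 1 by simp [norm_smul, p.ne'])
  simp only [mem_iUnion, mem_ofPred_eq] at this
  obtain ⟨j, hj, h⟩ := this
  refine ⟨j, Nat.lt_succ_of_le (hb hj), ?_⟩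
  rw [map_smul, smul_eq_mul, abs_mul, abs_of_pos (inv_pos.mpr p), lt_inv_mul_iff₀ p] at h
  linarith

theorem c0_rep {Z : Submodule ℝ Y} (hZ : ¬ FiniteDimensional ℝ Z) (c : ℕ → V →ₗ[ℝ] ℝ)
    (h1 : ∀ j x, |c j x| ≤ ‖x‖) (h2 : ∀ x, (∀ j, |c j x| ≤ 1 / 2) → ‖x‖ ≤ 1 / 2) :
    ∃ T : V →ₗ[ℝ] Y, (∀ x, T x ∈ Z) ∧ ∀ x : V, ‖x‖ ≤ ‖T x‖ ∧ ‖T x‖ ≤ 12 * ‖x‖ := by
  obtain ⟨N, hN⟩ := fin_c0 c h2
  obtain ⟨z, z1, z2⟩ := hump (Z := {z | z ∈ Z ∧ ‖z‖ = 1}) (fun z hz => hz.2.le)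
    (fun ε hε => sing hZ hε) N
  refine ⟨{ toFun := fun x => (4 : ℝ) • ∑ k ∈ Finset.range N, c k x • z k
            map_add' := fun x y => by simp [add_smul, Finset.sum_add_distrib]
            map_smul' := fun c x => by simp [Finset.smul_sum, smul_smul, mul_left_comm] },
    fun x => Z.smul_mem _ (Z.sum_mem fun k _ => Z.smul_mem _ (z1 k).1), fun x => ?_⟩
  obtain ⟨a1, a2⟩ := z2 (fun k => c k x) ‖x‖ (norm_nonneg _) fun k => h1 k x
  simp only [LinearMap.coe_mk, AddHom.coe_mk, norm_smul, Real.norm_ofNat]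
  refine ⟨?_, by linarith⟩
  rcases eq_or_ne x 0 with rfl | hx
  · simp
  · obtain ⟨j, hj, h⟩ := hN x hx
    have := a2 j hj
    rw [(z1 j).2] at this
    linarith

end Pool.Agent.H.MP_26275f_an
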