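import Pool.Agent.H.MP_4a5259_an.Main

set_option autoImplicit false

namespace Pool.Agent.H.MP_26275f_an

open Filter Topology Set Pool.Agent.H.MP_4a5259_an
open scoped ENNReal RealInnerProductSpace

theorem bcomp {b : ℕ → ℝ} {C : ℝ} (h : ∀ n t, |∑ i ∈ Finset.range n, co t i * b i| ≤ C * ‖t‖)
    {ε : ℝ} (hε : 0 < ε) :
    ∃ m, ∀ n t, |∑ i ∈ Finset.range n, co (P (Ici m) t) i * b i| ≤ ε * ‖t‖ := by
  let g : ℕ → E →L[ℝ] ℝ := fun n => ∑ i ∈ Finset.range n, b i • cl i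
  have g1 : ∀ n t, g n t = ∑ i ∈ Finset.range n, co t i * b i := fun n t => by
    simp [g, co, mul_comm]
  have g2 : ∀ n n' t, n ≤ n' → g n' (P (Iio n) t) = g n t := fun n n' t hn => by
    rw [g1, g1, co_P, ← Finset.sum_subset (Finset.range_mono hn) fun i _ hi => by
      simp [indicator, show ¬ i < n by simpa using hi]]
    exact Finset.sum_congr rfl fun i hi => by simp [indicator, Finset.mem_range.mp hi]
  have g3 : ∀ t, CauchySeq fun n => g n t := fun t =>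
    cauchySeq_of_le_tendsto_0' (fun n => C * ‖P (Ici n) t‖) (fun n n' hn => by
      have := congrArg (g n') (P_split' n t)
      rw [map_add, g2 n n' t hn] at this
      rw [dist_comm, Real.dist_eq, this, add_sub_cancel_left, g1]
      exact h _ _) (by simpa using (tail t).const_mul C)
  choose f0 hf0 using fun t => cauchySeq_tendsto_of_complete (g3 t)
  let f : E →L[ℝ] ℝ := continuousLinearMapOfTendsto g (tendsto_pi_nhds.mpr hf0)
  have f1 : ∀ n t, f (P (Iio n) t) = g n t := fun n t =>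
    tendsto_nhds_unique (hf0 _) (tendsto_const_nhds.congr'
      (eventually_atTop.mpr ⟨n, fun n' hn => (g2 n n' t hn).symm⟩))
  obtain ⟨m, hm⟩ := ((shrink f).eventually (ge_mem_nhds hε)).exists
  refine ⟨m, fun n t => ?_⟩
  rw [← g1, ← f1, P_P, inter_comm, ← P_P]
  exact ((f.comp (P (Ici m))).le_of_opNorm_le_of_le hm (P_le _ _))

/-- the Hilbert space over an index set of size continuum -/
def Hs : Type := lp (fun _ : ℝ => ℝ) 2

noncomputable instance : NormedAddCommGroup Hs :=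
  inferInstanceAs (NormedAddCommGroup (lp (fun _ : ℝ => ℝ) 2))

noncomputable instance : InnerProductSpace ℝ Hs :=
  inferInstanceAs (InnerProductSpace ℝ (lp (fun _ : ℝ => ℝ) 2))

instance : CompleteSpace Hs := inferInstanceAs (CompleteSpace (lp (fun _ : ℝ => ℝ) 2))

/-- unit vector -/
noncomputable def sg (γ : ℝ) : Hs := lp.single (E := fun _ : ℝ => ℝ) 2 γ 1

/-- coordinate -/
noncomputable def cd (x : Hs) (γ : ℝ) : ℝ := ⟪sg γ, x⟫

theorem cd_eq (x : Hs) (γ : ℝ) : cd x γ = x.1 γ :=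
  (lp.inner_single_left (𝕜 := ℝ) (G := fun _ : ℝ => ℝ) γ 1 x).trans (by simp)

theorem cd_ext {x y : Hs} (h : ∀ γ, cd x γ = cd y γ) : x = y :=
  lp.ext (funext fun γ => by rw [← cd_eq, ← cd_eq, h])

theorem cd_le (x : Hs) (γ : ℝ) : |cd x γ| ≤ ‖x‖ := by
  rw [cd_eq]
  exact lp.norm_apply_le_norm (E := fun _ : ℝ => ℝ) (by simp) x γ

theorem cd_sg (γ δ : ℝ) : cd (sg γ) δ = if δ = γ then 1 else 0 := by
  rw [cd_eq]
  exact (lp.single_apply (E := fun _ : ℝ => ℝ) 2 γ 1 δ).trans (Pi.single_apply _ _ _)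

theorem cd_add (x y : Hs) (γ : ℝ) : cd (x + y) γ = cd x γ + cd y γ := inner_add_right _ _ _

theorem cd_smul (c : ℝ) (x : Hs) (γ : ℝ) : cd (c • x) γ = c * cd x γ := real_inner_smul_right _ _ _

theorem ind_abs (S : Set ℝ) (x : ℝ → ℝ) (γ : ℝ) : ‖S.indicator x γ‖ ≤ ‖x γ‖ :=
  norm_indicator_le_norm_self x γ

/-- restriction of a vector -/
noncomputable def res (S : Set ℝ) (x : Hs) : Hs :=
  ⟨S.indicator x.1, (x.2 : Memℓp x.1 2).mono' (ind_abs S x.1)⟩

theorem cd_res (S : Set ℝ) (x : Hs) (γ : ℝ) : cd (res S x) γ = S.indicator (cd x) γ := by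
  rw [cd_eq, funext (cd_eq x)]
  rfl

theorem res_le (S : Set ℝ) (x : Hs) : ‖res S x‖ ≤ ‖x‖ :=
  lp.norm_mono (E := fun _ : ℝ => ℝ) (F := fun _ : ℝ => ℝ) (by simp) (ind_abs S x.1)

theorem res_inner (S : Set ℝ) (x y : Hs) : ⟪res S x, y⟫ = ⟪x, res S y⟫ := by
  refine (lp.inner_eq_tsum (G := fun _ : ℝ => ℝ) _ _).trans
    (Eq.trans (tsum_congr fun γ => ?_) (lp.inner_eq_tsum (G := fun _ : ℝ => ℝ) _ _).symm)
  change ⟪S.indicator x.1 γ, y.1 γ⟫ = ⟪x.1 γ, S.indicator y.1 γ⟫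
  by_cases h : γ ∈ S <;> simp [h]

theorem cd_sum {ι : Type} (F : Finset ι) (x : ι → Hs) (γ : ℝ) :
    cd (∑ i ∈ F, x i) γ = ∑ i ∈ F, cd (x i) γ := inner_sum _ _ _

theorem res_fin (F : Finset ℝ) (x : Hs) : res F x = ∑ γ ∈ F, cd x γ • sg γ :=
  cd_ext fun δ => by simp [cd_res, cd_sum, cd_smul, cd_sg, indicator]

theorem res_split (S : Set ℝ) (x : Hs) : x = res S x + res Sᶜ x :=
  cd_ext fun γ => by rw [cd_add, cd_res, cd_res, indicator_self_add_compl_apply]

theorem res_tail (x : Hs) : Tendsto (fun F : Finset ℝ => ‖res (F : Set ℝ)ᶜ x‖) atTop (𝓝 0) := by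
  have h : HasSum (fun γ => cd x γ • sg γ) x := by
    have := lp.hasSum_single (E := fun _ : ℝ => ℝ) (p := 2) (by simp) x
    have e : (fun γ => cd x γ • sg γ) = fun γ => lp.single (E := fun _ : ℝ => ℝ) 2 γ (x.1 γ) := by
      funext γ
      rw [cd_eq]
      exact (lp.single_smul (E := fun _ : ℝ => ℝ) 2 γ (x.1 γ) (1 : ℝ)).symm.trans (by simp)
    rw [e]
    exact this
  have h2 := tendsto_iff_norm_sub_tendsto_zero.mp h
  refine h2.congr fun F => ?_
  rw [← res_fin, norm_sub_rev]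
  congr 1
  exact sub_eq_iff_eq_add'.mpr (res_split _ x)

/-- the dual balls of the interpolation norms -/
def D (w : ℕ → Hs) : Prop := ∀ i, ‖w i‖ ≤ 2 ^ i ∧ ∀ γ, |cd (w i) γ| ≤ (1 / 2) ^ i

theorem D.res {w : ℕ → Hs} (h : D w) (S : Set ℝ) : D fun i => res S (w i) := fun i =>
  ⟨(res_le _ _).trans (h i).1, fun γ => by
    rw [cd_res]
    exact (ind_abs S _ γ).trans ((h i).2 γ)⟩

/-- the norming functionals -/
noncomputable def A (t : E) (w : ℕ → Hs) (n : ℕ) : Hs →L[ℝ] ℝ :=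
  ∑ i ∈ Finset.range n, co t i • innerSL ℝ (w i)

theorem A_eq (t : E) (w : ℕ → Hs) (n : ℕ) (x : Hs) :
    A t w n x = ∑ i ∈ Finset.range n, co t i * ⟪w i, x⟫ := by simp [A]

theorem A_add (t s : E) (w : ℕ → Hs) (n : ℕ) (x : Hs) : A (t + s) w n x = A t w n x + A s w n x := by
  simp [A_eq, co_add, add_mul, Finset.sum_add_distrib]

theorem A_smul (c : ℝ) (t : E) (w : ℕ → Hs) (n : ℕ) (x : Hs) : A (c • t) w n x = c * A t w n x := by
  simp [A_eq, co_smul, Finset.mul_sum, mul_assoc]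

theorem A_res (t : E) (w : ℕ → Hs) (n : ℕ) (S : Set ℝ) (x : Hs) :
    A t w n (res S x) = A t (fun i => res S (w i)) n x := by
  simp [A_eq, res_inner]

/-- bounded on the norming set -/
def Bd (x : Hs) (C : ℝ) : Prop := ∀ t w n, ‖t‖ ≤ 1 → D w → A t w n x ≤ C

theorem Bd.abs {x : Hs} {C : ℝ} (h : Bd x C) (t : E) {w : ℕ → Hs} (hw : D w) (n : ℕ) :
    |A t w n x| ≤ C * ‖t‖ := by
  rcases eq_or_ne t 0 with rfl | h0
  · have := A_smul 0 0 w n x
    rw [zero_smul, zero_mul] at this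
    simp [this]
  have p := norm_pos_iff.mpr h0
  have h1 := h (‖t‖⁻¹ • t) w n (by simp [norm_smul, p.ne']) hw
  have h2 := h ((-‖t‖⁻¹) • t) w n (by simp [norm_smul, p.ne']) hw
  rw [A_smul, inv_mul_le_iff₀ p] at h1
  rw [A_smul, neg_mul, ← mul_neg, inv_mul_le_iff₀ p] at h2
  exact abs_le.mpr ⟨by linarith, by linarith⟩

theorem e_le (i : ℕ) : ‖e i‖ ≤ 1 := norm_le fun g h => by
  rw [co_e, pr_eq, Finset.sum_eq_single i (fun j _ hj => by simp [hj]) fun h => by simpa using h]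
  simpa using h.le_one i

theorem D_single {w : Hs} {i : ℕ} (h1 : ‖w‖ ≤ 2 ^ i) (h2 : ∀ γ, |cd w γ| ≤ (1 / 2) ^ i) :
    D (Pi.single i w) := fun j => by
  by_cases h : j = i
  · subst h; simpa using ⟨h1, by simpa using h2⟩
  · simp [h, cd]

theorem div_mul_cancel_le_of_nonneg' (i : ℕ) (a : ℝ) : 2 ^ i / a * a ≤ 2 ^ i := by
  rcases eq_or_ne a 0 with rfl | h
  · simp
  · rw [div_mul_cancel₀ _ h]

theorem Bd.flat {x : Hs} {C : ℝ} (h : Bd x C) (i : ℕ) (hx : ∀ γ, 4 ^ i * |cd x γ| ≤ ‖x‖) :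
    2 ^ i * ‖x‖ ≤ C := by
  have := h (e i) (Pi.single i ((2 ^ i / ‖x‖) • x)) (i + 1) (e_le i) (D_single ?_ fun γ => ?_)
  · rw [A_eq, co_e, Finset.sum_eq_single i (fun j _ hj => by simp [hj]) (by simp)] at this
    simp only [Pi.single_eq_same, real_inner_smul_left, real_inner_self_eq_norm_sq,
      one_mul] at this
    rcases eq_or_ne ‖x‖ 0 with h0 | h0
    · simpa [h0] using this
    · refine le_trans (le_of_eq ?_) this
      field_simp
  · rw [norm_smul, Real.norm_of_nonneg (by positivity)]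
    exact div_mul_cancel_le_of_nonneg' _ _
  · rw [cd_smul, abs_mul, abs_of_nonneg (by positivity)]
    rcases eq_or_ne ‖x‖ 0 with h0 | h0
    · simp [h0]
    · have p : 0 < ‖x‖ := lt_of_le_of_ne (norm_nonneg _) h0.symm
      have e : (4 : ℝ) ^ i = 2 ^ i * 2 ^ i := by rw [← mul_pow]; norm_num
      rw [div_mul_eq_mul_div, div_le_iff₀ p, one_div, inv_pow, le_inv_mul_iff₀ (by positivity),
        ← mul_assoc, ← e]
      exact hx γ

/-- index set of the norming functionals -/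
abbrev J := {p : E × (ℕ → Hs) × ℕ // ‖p.1‖ ≤ 1 ∧ D p.2.1}

/-- the space as a subspace -/
def Ys : Submodule ℝ (Hs × lp (fun _ : J => ℝ) ∞) where
  carrier := {z | ∀ j : J, z.2 j = A j.1.1 j.1.2.1 j.1.2.2 z.1}
  add_mem' := fun {a b} ha hb j => by
    simp only [Prod.snd_add, Prod.fst_add, lp.coeFn_add, Pi.add_apply, ha j, hb j, map_add]
  zero_mem' := fun j => by simp
  smul_mem' := fun c a ha j => by
    simp only [Prod.smul_snd, Prod.smul_fst, lp.coeFn_smul, Pi.smul_apply, ha j, map_smul]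

theorem Ys_closed : IsClosed (Ys : Set (Hs × lp (fun _ : J => ℝ) ∞)) := by
  simp only [Ys, Submodule.coe_set_mk, AddSubmonoid.coe_set_mk, AddSubsemigroup.coe_set_mk,
    ofPred_forall]
  exact isClosed_iInter fun j => isClosed_eq
    ((lp.lipschitzWith_one_eval ∞ j).continuous.comp continuous_snd)
    ((A _ _ _).continuous.comp continuous_fst)

/-- the space -/
def Y : Type := ↥Ys

noncomputable instance : NormedAddCommGroup Y := inferInstanceAs (NormedAddCommGroup ↥Ys)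

noncomputable instance : NormedSpace ℝ Y := inferInstanceAs (NormedSpace ℝ ↥Ys)

instance : CompleteSpace Y := Ys_closed.completeSpace_coe

/-- inclusion in the Hilbert space -/
noncomputable def v : Y →L[ℝ] Hs :=
  LinearMap.mkContinuous
    { toFun := fun y => y.1.1
      map_add' := fun _ _ => rfl
      map_smul' := fun _ _ => rfl } 1
    fun y => (norm_fst_le y.1).trans_eq (one_mul _).symm

theorem v_le (y : Y) : ‖v y‖ ≤ ‖y‖ := norm_fst_le y.1

theorem v_inj {x y : Y} (h : v x = v y) : x = y :=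
  Subtype.ext (Prod.ext h (lp.ext (funext fun j => by
    rw [x.2 j, y.2 j]; exact congrArg _ h)))

theorem v_bd (y : Y) : Bd (v y) ‖y‖ := fun t w n ht hw =>
  (le_abs_self _).trans ((le_of_eq (congrArg _ (y.2 ⟨(t, w, n), ht, hw⟩).symm)).trans
    ((lp.norm_apply_le_norm (by simp) y.1.2 ⟨(t, w, n), ht, hw⟩).trans (norm_snd_le y.1)))

theorem Bd.abs' {x : Hs} {C : ℝ} (h : Bd x C) (j : J) : |A j.1.1 j.1.2.1 j.1.2.2 x| ≤ C := by
  have h1 := h _ _ j.1.2.2 j.2.1 j.2.2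
  have h2 := h ((-1 : ℝ) • j.1.1) _ j.1.2.2 (by simpa using j.2.1) j.2.2
  rw [A_smul] at h2
  exact abs_le.mpr ⟨by linarith, h1⟩

theorem nrm_le {y : Y} {C : ℝ} (h : Bd (v y) C) : ‖y‖ ≤ C := by
  have h1 : ‖v y‖ ≤ C := by simpa using h.flat 0 (by simpa using cd_le _)
  refine max_le h1 (lp.norm_le_of_forall_le ((norm_nonneg _).trans h1) fun j => ?_)
  exact (le_of_eq (congrArg abs (y.2 j))).trans (h.abs' j)

/-- an element of the space -/
noncomputable def mkY (x : Hs) (C : ℝ) (h : Bd x C) : Y :=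
  ⟨(x, ⟨fun j => A j.1.1 j.1.2.1 j.1.2.2 x,
    memℓp_infty ⟨C, by rintro _ ⟨j, rfl⟩; exact h.abs' j⟩⟩), fun _ => rfl⟩

theorem v_mk (x : Hs) (C : ℝ) (h : Bd x C) : v (mkY x C h) = x := rfl

theorem Bd.res {x : Hs} {C : ℝ} (h : Bd x C) (S : Set ℝ) : Bd (res S x) C := fun t w n ht hw => by
  rw [A_res]
  exact h _ _ _ ht (hw.res S)

/-- coordinate projection -/
noncomputable def Q (S : Set ℝ) : Y →L[ℝ] Y :=
  LinearMap.mkContinuous
    { toFun := fun y => mkY (res S (v y)) ‖y‖ ((v_bd y).res S)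
      map_add' := fun x y => v_inj (cd_ext fun γ => by
        by_cases h : γ ∈ S <;> simp [v_mk, cd_res, cd_add, h])
      map_smul' := fun c x => v_inj (cd_ext fun γ => by
        by_cases h : γ ∈ S <;> simp [v_mk, cd_res, cd_smul, h]) } 1
    fun y => (nrm_le ((v_bd y).res S)).trans_eq (one_mul _).symm

theorem v_Q (S : Set ℝ) (y : Y) : v (Q S y) = res S (v y) := rfl

theorem Q_le (S : Set ℝ) (y : Y) : ‖Q S y‖ ≤ ‖y‖ := nrm_le ((v_bd y).res S)

theorem Q_split (S : Set ℝ) (y : Y) : y = Q S y + Q Sᶜ y :=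
  v_inj (by rw [map_add]; exact res_split S _)

/-- basis vector -/
noncomputable def u (γ : ℝ) : Y :=
  mkY (sg γ) 2 fun t w n ht hw => by
    rw [A_eq]
    refine le_trans (Finset.sum_le_sum fun i _ => ?_) (sum_geometric_two_le n)
    refine (le_abs_self _).trans ?_
    rw [abs_mul, real_inner_comm, ← one_mul ((1 / 2 : ℝ) ^ i)]
    exact mul_le_mul ((co_le t i).trans ht) ((hw i).2 γ) (abs_nonneg _) zero_le_one

theorem v_u (γ : ℝ) : v (u γ) = sg γ := rfl

theorem Q_fin (F : Finset ℝ) (y : Y) : Q F y = ∑ γ ∈ F, cd (v y) γ • u γ :=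
  v_inj (by simp [v_Q, res_fin, v_u])

theorem head (m : ℕ) (t : E) {w : ℕ → Hs} (hw : D w) (n : ℕ) (x : Hs) :
    |A (P (Iio m) t) w n x| ≤ 2 ^ m * ‖x‖ * ‖t‖ := by
  rw [A_eq, co_P]
  refine (Finset.abs_sum_le_sum_abs _ _).trans ?_
  calc _ ≤ ∑ i ∈ Finset.range n, if i ∈ Finset.range m then 2 ^ i * (‖x‖ * ‖t‖) else 0 :=
        Finset.sum_le_sum fun i _ => by
          by_cases h : i < m
          · simp only [indicator, mem_Iio, h, if_true, Finset.mem_range, abs_mul]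
            have h1 := (abs_real_inner_le_norm (w i) x).trans
              (mul_le_mul_of_nonneg_right (hw i).1 (norm_nonneg x))
            have := mul_le_mul (co_le t i) h1 (abs_nonneg _) (norm_nonneg _)
            linarith
          · simp [indicator, h]
    _ ≤ ∑ i ∈ Finset.range m, 2 ^ i * (‖x‖ * ‖t‖) := by
        rw [Finset.sum_ite_mem]
        exact Finset.sum_le_sum_of_subset_of_nonneg Finset.inter_subset_right
          fun _ _ _ => by positivity
    _ ≤ _ := by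
        rw [← Finset.sum_mul, mul_assoc]
        refine mul_le_mul_of_nonneg_right ?_ (by positivity)
        rw [geom_sum_eq (by norm_num)]
        linarith

theorem tailY (y : Y) {ε : ℝ} (hε : 0 < ε) :
    ∃ m, ∀ t w n, D w → |A (P (Ici m) t) w n (v y)| ≤ ε * ‖t‖ := by
  have ex : ∀ i : ℕ, ∃ w0 : Hs, (‖w0‖ ≤ 2 ^ i ∧ ∀ γ, |cd w0 γ| ≤ (1 / 2) ^ i) ∧
      ∀ w : Hs, (‖w‖ ≤ 2 ^ i ∧ ∀ γ, |cd w γ| ≤ (1 / 2) ^ i) → |⟪w, v y⟫| ≤ 2 * ⟪w0, v y⟫ := by
    intro i
    by_contra hc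
    push Not at hc
    have k : ∃ w : Hs, (‖w‖ ≤ 2 ^ i ∧ ∀ γ, |cd w γ| ≤ (1 / 2) ^ i) ∧ 0 < ⟪w, v y⟫ := by
      obtain ⟨w, hw, h⟩ := hc 0 ⟨by simp, by simp [cd]⟩
      rw [inner_zero_left, mul_zero] at h
      rcases lt_abs.mp h with h | h
      · exact ⟨w, hw, h⟩
      · exact ⟨-w, ⟨by simpa using hw.1, by simpa [cd] using hw.2⟩, by simpa using h⟩
    obtain ⟨w1, hw1, p1⟩ := k
    have k2 : ∀ k : ℕ, ∃ w : Hs, (‖w‖ ≤ 2 ^ i ∧ ∀ γ, |cd w γ| ≤ (1 / 2) ^ i) ∧
        2 ^ k * ⟪w1, v y⟫ ≤ ⟪w, v y⟫ := fun k => by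
      induction k with
      | zero => exact ⟨w1, hw1, by simp⟩
      | succ k ih =>
        obtain ⟨w0, h0, h1⟩ := ih
        obtain ⟨w, hw, h⟩ := hc w0 h0
        rcases lt_abs.mp h with h | h
        · exact ⟨w, hw, by rw [pow_succ]; linarith⟩
        · exact ⟨-w, ⟨by simpa using hw.1, by simpa [cd] using hw.2⟩,
            by rw [pow_succ, inner_neg_left]; linarith⟩
    obtain ⟨k, hk⟩ := pow_unbounded_of_one_lt (2 ^ i * ‖v y‖ / ⟪w1, v y⟫) (one_lt_two (α := ℝ))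
    obtain ⟨w, hw, h⟩ := k2 k
    have := (real_inner_le_norm w (v y)).trans (mul_le_mul_of_nonneg_right hw.1 (norm_nonneg _))
    rw [div_lt_iff₀ p1] at hk
    linarith
  choose w0 h0 h1 using ex
  obtain ⟨m, hm⟩ := bcomp (b := fun i => ⟪w0 i, v y⟫) (C := ‖y‖)
    (fun n t => by rw [← A_eq]; exact (v_bd y).abs t h0 n) (show 0 < ε / 4 by positivity)
  refine ⟨m, fun t w n hw => ?_⟩
  have a1 := (abs_le.mp ((hm n (P {i | 0 ≤ co t i} t)).trans
    (mul_le_mul_of_nonneg_left (P_le _ _) (by positivity)))).2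
  have a2 := (abs_le.mp ((hm n (P {i | 0 ≤ co t i}ᶜ t)).trans
    (mul_le_mul_of_nonneg_left (P_le _ _) (by positivity)))).1
  rw [A_eq]
  refine (Finset.abs_sum_le_sum_abs _ _).trans ((Finset.sum_le_sum (g := fun i =>
    2 * (co (P (Ici m) (P {i | 0 ≤ co t i} t)) i * ⟪w0 i, v y⟫) -
      2 * (co (P (Ici m) (P {i | 0 ≤ co t i}ᶜ t)) i * ⟪w0 i, v y⟫)) fun i _ => ?_).trans ?_)
  · have := h1 i (w i) (hw i)
    simp only [co_P, indicator, mem_ofPred_eq, mem_compl_iff, abs_mul]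
    by_cases hi : i ∈ Ici m
    · by_cases hc : 0 ≤ co t i
      · simp only [hi, hc, if_true, not_true, if_false, abs_of_nonneg hc]
        nlinarith
      · simp only [hi, hc, if_true, not_false_iff, if_false, abs_of_neg (not_le.mp hc)]
        nlinarith
    · simp [hi]
  · rw [Finset.sum_sub_distrib, ← Finset.mul_sum, ← Finset.mul_sum]
    linarith

end Pool.Agent.H.MP_26275f_an
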